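import Mathlib
import Pool.Agent.Q172.HSLemmas
import Pool.Agent.Helper531.Sine

set_option autoImplicit false

open Set Topology Q172.HSDefs

namespace Pool.Agent.Results.MP_53bf97_gt.NotAposyndetic

open Pool.Agent.Helper531

theorem sine_not (p x : Sine.X) (hp : p.1 = (0, 1)) (hx : x.1 = (0, 0)) :
    ¬ AposyndeticAt Sine.X x p := by
  rintro ⟨M, hMc, hM, hxM, hpM⟩
  apply hpM
  obtain ⟨O, hO, hOM⟩ := mem_nhds_induced _ _ _ |>.1 (mem_interior_iff_mem_nhds.1 hxM)
  have hxO : (0, 0) ∈ closure (Sine.g '' Ioo 0 1) := Sine.bar_mem_closure (by norm_num) one_pos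
  rw [hx] at hO
  obtain ⟨_, hqO, t, ht, rfl⟩ := mem_closure_iff_nhds.1 hxO O hO
  have hgt : (⟨Sine.g t, Sine.g_mem ht.1 ht.2.le⟩ : Sine.X) ∈ M := hOM hqO
  have hxM' : x ∈ M := interior_subset hxM
  have hord := (hM.isPreconnected.image (fun q : Sine.X => q.1.1)
    (continuous_fst.comp continuous_subtype_val).continuousOn).ordConnected
  have hsub : Sine.g '' Ioo 0 t ⊆ Subtype.val '' M := by
    rintro _ ⟨s, hs, rfl⟩
    have h0 : (0 : ℝ) ∈ (fun q : Sine.X => q.1.1) '' M := ⟨x, hxM', by simp only [hx]⟩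
    obtain ⟨q, hq, hqs⟩ := hord.out h0 ⟨_, hgt, rfl⟩ (show s ∈ Icc 0 t from ⟨hs.1.le, hs.2.le⟩)
    have hqs' : q.1.1 = s := hqs
    refine ⟨q, hq, ?_⟩
    rw [Sine.eq_g q.2 (by rw [hqs']; exact hs.1), hqs']
  have hcl : ((0 : ℝ), (1 : ℝ)) ∈ Subtype.val '' M :=
    closure_minimal hsub (hMc.image continuous_subtype_val).isClosed
      (Sine.bar_mem_closure (by norm_num) ht.1)
  obtain ⟨q, hq, hq1⟩ := hcl
  have : q = p := Subtype.ext (hq1.trans hp.symm)
  rwa [← this]

/-- If `HS(p, X)` is aposyndetic then `X` is aposyndetic at each of its points with respect to `p`;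
and there are a nondegenerate metric continuum `X` and a point `p` for which `HS(p, X)` is not
aposyndetic. -/
theorem result :
    (∀ (X : Type) [MetricSpace X] [CompactSpace X] [ConnectedSpace X] [Nontrivial X] (p : X),
      Aposyndetic (HS X p) → ∀ x, x ≠ p → AposyndeticAt X x p) ∧
    ∃ (X : Type) (_ : MetricSpace X) (p : X),
      CompactSpace X ∧ ConnectedSpace X ∧ Nontrivial X ∧ ¬ Aposyndetic (HS X p) := by
  have main : ∀ (X : Type) [MetricSpace X] [CompactSpace X] [ConnectedSpace X] (p : X),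
      Aposyndetic (HS X p) → ∀ x, x ≠ p → AposyndeticAt X x p := by
    intro X _ _ _ p h x hx
    let s : X → Hyperspace X := fun y => ⟨{y}, by
      show IsConnected (({y} : TopologicalSpace.NonemptyCompacts X) : Set X)
      rw [TopologicalSpace.NonemptyCompacts.coe_singleton]
      exact isConnected_singleton⟩
    have hs : ∀ y, ((s y).1 : Set X) = {y} := fun y =>
      TopologicalSpace.NonemptyCompacts.coe_singleton y
    have hpp : p ∈ ((s p).1 : Set X) := by rw [hs]; exact rfl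
    refine Q172.HSLemmas.apo_down hx (hs x) hpp (h _ _ ?_)
    intro he
    rcases Q172.HSLemmas.mk_eq he with h1 | h1
    · have h2 : ((s x).1 : Set X) = (s p).1 := by rw [h1]
      rw [hs, hs, singleton_eq_singleton_iff] at h2
      exact hx h2
    · rw [hs] at h1
      exact hx h1.1.symm
  refine ⟨fun X _ _ _ _ p => main X p, ?_⟩
  have h1 : CompactSpace Sine.X := isCompact_iff_compactSpace.mp Sine.X_compact
  have h2 : ConnectedSpace Sine.X := isConnected_iff_connectedSpace.mp Sine.X_connected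
  have hm1 : ((0 : ℝ), (1 : ℝ)) ∈ Sine.X :=
    ⟨le_rfl, zero_le_one, by norm_num, fun h => absurd h (lt_irrefl _)⟩
  have hm0 : ((0 : ℝ), (0 : ℝ)) ∈ Sine.X :=
    ⟨le_rfl, zero_le_one, by norm_num, fun h => absurd h (lt_irrefl _)⟩
  have hne : (⟨(0, 0), hm0⟩ : Sine.X) ≠ ⟨(0, 1), hm1⟩ := by
    intro h
    have h3 := congrArg (fun q : Sine.X => q.1.2) h
    norm_num at h3
  refine ⟨Sine.X, inferInstance, ⟨(0, 1), hm1⟩, h1, h2, ⟨_, _, hne⟩, ?_⟩
  intro h
  exact sine_not ⟨(0, 1), hm1⟩ ⟨(0, 0), hm0⟩ rfl rfl (main Sine.X ⟨(0, 1), hm1⟩ h _ hne)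

end Pool.Agent.Results.MP_53bf97_gt.NotAposyndetic
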