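import Mathlib
import Pool.Agent.Q172.HSLemmas

set_option autoImplicit false

open Q172.HSDefs

namespace Pool.Agent.Results.MP_53bf97_gt.SemiAposyndesis

/-- For every (nondegenerate metric) continuum `X` and every point `p` the quotient hyperspace
`HS(p, X)` is semi-aposyndetic. -/
theorem result (X : Type) [MetricSpace X] [CompactSpace X] [ConnectedSpace X] [Nontrivial X]
    (p : X) : SemiAposyndetic (HS X p) := by
  intro x y hxy
  obtain ⟨A, rfl⟩ := Q172.HSLemmas.mk_surj x
  obtain ⟨B, rfl⟩ := Q172.HSLemmas.mk_surj y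
  by_cases hA : p ∈ (A.1 : Set X)
  · by_cases hB : p ∈ (B.1 : Set X)
    · exact absurd (Q172.HSLemmas.mk_eq_of hA hB) hxy
    · exact Or.inl (Q172.HSLemmas.apo_special hA hB)
  · by_cases hB : p ∈ (B.1 : Set X)
    · exact Or.inr (Q172.HSLemmas.apo_special hB hA)
    · by_cases hAB : (A.1 : Set X) ⊆ B.1
      · right
        apply Q172.HSLemmas.apo_ordinary hB hA
        intro hBA
        apply hxy
        rw [Subtype.ext (TopologicalSpace.NonemptyCompacts.ext (Set.Subset.antisymm hAB hBA))]
      · exact Or.inl (Q172.HSLemmas.apo_ordinary hA hB hAB)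

end Pool.Agent.Results.MP_53bf97_gt.SemiAposyndesis
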